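import Pool.Agent.H240.GU.Def5

/-! GV-4: approximation of a curve by holomorphic functions, by Fourier series (helper539). -/

set_option autoImplicit false

open Set Filter Topology MeasureTheory
open scoped ContDiff ComplexConjugate Real

noncomputable section

namespace Pool.Agent.H539.GV

open Pool.Agent.H240.GV

/-! ### Fourier coefficients of smooth periodic functions -/

/-- Fourier coefficients -/
def cf (g : ℝ → ℂ) (k : ℤ) : ℂ :=
  (1 / (2 * π) : ℝ) • ∫ t in (0 : ℝ)..2 * π, Complex.exp (-((k : ℂ) * ((t : ℂ) * Complex.I))) * g t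

lemma hd_exp (c : ℂ) (t : ℝ) : HasDerivAt (fun t : ℝ => Complex.exp (c * ((t : ℂ) * Complex.I)))
    (c * Complex.I * Complex.exp (c * ((t : ℂ) * Complex.I))) t := by
  have h1 : HasDerivAt (fun t : ℝ => c * ((t : ℂ) * Complex.I)) (c * Complex.I) t := by
    have h0 : HasDerivAt (fun t : ℝ => (t : ℂ)) 1 t := Complex.ofRealCLM.hasDerivAt
    have h2 := (h0.mul_const Complex.I).const_mul c
    rwa [one_mul] at h2
  have h3 := h1.cexp
  rwa [mul_comm] at h3

lemma exp_per (k : ℤ) : Complex.exp (-((k : ℂ) * (((2 * π : ℝ) : ℂ) * Complex.I))) = 1 := by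
  have h : -((k : ℂ) * (((2 * π : ℝ) : ℂ) * Complex.I)) = ((-k : ℤ) : ℂ) * (2 * π * Complex.I) := by
    push_cast
    ring
  rw [h]
  exact Complex.exp_int_mul_two_pi_mul_I (-k)

lemma cf_deriv (g g' : ℝ → ℂ) (hg : ∀ t, HasDerivAt g (g' t) t) (hc : Continuous g')
    (hp : g (2 * π) = g 0) (k : ℤ) : cf g' k = (k : ℂ) * Complex.I * cf g k := by
  have he : ∀ t : ℝ, HasDerivAt (fun t : ℝ => Complex.exp (-((k : ℂ) * ((t : ℂ) * Complex.I))))
      (-(k : ℂ) * Complex.I * Complex.exp (-((k : ℂ) * ((t : ℂ) * Complex.I)))) t := by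
    intro t
    have h1 := hd_exp (-(k : ℂ)) t
    simp only [neg_mul] at h1 ⊢
    exact h1
  have hec : Continuous fun t : ℝ => -(k : ℂ) * Complex.I *
      Complex.exp (-((k : ℂ) * ((t : ℂ) * Complex.I))) := by fun_prop
  have h := intervalIntegral.integral_mul_deriv_eq_deriv_mul (a := (0 : ℝ)) (b := 2 * π)
    (u := fun t : ℝ => Complex.exp (-((k : ℂ) * ((t : ℂ) * Complex.I))))
    (u' := fun t : ℝ => -(k : ℂ) * Complex.I * Complex.exp (-((k : ℂ) * ((t : ℂ) * Complex.I))))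
    (v := g) (v' := g') (fun t _ => he t) (fun t _ => hg t) (hec.intervalIntegrable _ _)
    (hc.intervalIntegrable _ _)
  have e0 : Complex.exp (-((k : ℂ) * (((0 : ℝ) : ℂ) * Complex.I))) = 1 := by
    rw [Complex.ofReal_zero, zero_mul, mul_zero, neg_zero, Complex.exp_zero]
  rw [exp_per, e0, hp, sub_self, zero_sub] at h
  have e1 : ∫ t in (0 : ℝ)..2 * π, -(k : ℂ) * Complex.I *
      Complex.exp (-((k : ℂ) * ((t : ℂ) * Complex.I))) * g t =
      -(k : ℂ) * Complex.I * ∫ t in (0 : ℝ)..2 * π,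
        Complex.exp (-((k : ℂ) * ((t : ℂ) * Complex.I))) * g t := by
    rw [← intervalIntegral.integral_const_mul]
    congr 1
    funext t
    ring
  rw [e1] at h
  unfold cf
  rw [h, mul_smul_comm]
  congr 1
  ring

lemma cf_bound (g : ℝ → ℂ) : ∃ M : ℝ, 0 ≤ M ∧ ∀ k : ℤ, ‖cf g k‖ ≤ M := by
  have hpi : (0 : ℝ) ≤ 2 * π := by positivity
  refine ⟨‖(1 / (2 * π) : ℝ)‖ * ∫ t in (0 : ℝ)..2 * π, ‖g t‖, mul_nonneg (norm_nonneg _)
    (intervalIntegral.integral_nonneg hpi fun t _ => norm_nonneg _), fun k => ?_⟩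
  unfold cf
  rw [norm_smul]
  refine mul_le_mul_of_nonneg_left ?_ (norm_nonneg _)
  refine (intervalIntegral.norm_integral_le_integral_norm hpi).trans (le_of_eq ?_)
  congr 1
  funext t
  rw [norm_mul]
  have h : -((k : ℂ) * ((t : ℂ) * Complex.I)) = ((-(k * t) : ℝ) : ℂ) * Complex.I := by
    push_cast
    ring
  rw [h, Complex.norm_exp_ofReal_mul_I, one_mul]

/-- the Fourier series -/
lemma cf_hasSum (g : ℝ → ℂ) (hg : Continuous g) (hp : ∀ t, g (t + 2 * π) = g t)
    (hs : Summable fun k : ℤ => ‖cf g k‖) (t : ℝ) :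
    HasSum (fun k : ℤ => cf g k * Complex.exp ((k : ℂ) * ((t : ℂ) * Complex.I))) (g t) := by
  have : Fact ((0 : ℝ) < 2 * π) := ⟨by positivity⟩
  have hper : Function.Periodic g (2 * π) := hp
  let G : C(AddCircle (2 * π), ℂ) := ⟨hper.lift, continuous_coinduced_dom.mpr hg⟩
  have hpi : (π : ℂ) ≠ 0 := by exact_mod_cast Real.pi_ne_zero
  have hco : ∀ k : ℤ, fourierCoeff G k = cf g k := by
    intro k
    rw [fourierCoeff_eq_intervalIntegral _ k 0, zero_add]
    unfold cf
    congr 2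
    funext x
    rw [fourier_coe_apply, smul_eq_mul]
    have e1 : G (x : AddCircle (2 * π)) = g x := rfl
    rw [e1]
    congr 2
    push_cast
    field_simp
  have hsum : Summable (fourierCoeff G) := by
    have e : fourierCoeff G = cf g := funext hco
    rw [e]
    exact hs.of_norm
  have h := has_pointwise_sum_fourier_series_of_summable hsum (t : AddCircle (2 * π))
  have e1 : G (t : AddCircle (2 * π)) = g t := rfl
  rw [e1] at h
  have e2 : (fun i : ℤ => fourierCoeff G i • fourier i (t : AddCircle (2 * π))) =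
      fun k : ℤ => cf g k * Complex.exp ((k : ℂ) * ((t : ℂ) * Complex.I)) := by
    funext k
    rw [hco, fourier_coe_apply, smul_eq_mul]
    congr 2
    push_cast
    field_simp
  rw [e2] at h
  exact h

lemma hP (p : ℝ → ℂ) (hp : ContDiff ℝ ∞ p) (j : ℕ) (t : ℝ) :
    HasDerivAt (iteratedDeriv j p) (iteratedDeriv (j + 1) p t) t := by
  rw [iteratedDeriv_succ]
  exact (hp.differentiable_iteratedDeriv j (WithTop.coe_lt_coe.2 (ENat.natCast_lt_top j)) t).hasDerivAt

lemma hPc (p : ℝ → ℂ) (hp : ContDiff ℝ ∞ p) (j : ℕ) : Continuous (iteratedDeriv j p) :=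
  continuous_iff_continuousAt.2 fun t => (hP p hp j t).continuousAt

lemma hPp (p : ℝ → ℂ) (hper : ∀ t, p (t + 2 * π) = p t) (j : ℕ) :
    ∀ t, iteratedDeriv j p (t + 2 * π) = iteratedDeriv j p t := by
  induction j with
  | zero =>
    intro t
    rw [iteratedDeriv_zero]
    exact hper t
  | succ j ih =>
    intro t
    rw [iteratedDeriv_succ, ← deriv_comp_add_const]
    congr 1
    funext t
    exact ih t

lemma cf_iter (p : ℝ → ℂ) (hp : ContDiff ℝ ∞ p) (hper : ∀ t, p (t + 2 * π) = p t) (j : ℕ) (k : ℤ) :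
    cf (iteratedDeriv j p) k = ((k : ℂ) * Complex.I) ^ j * cf p k := by
  induction j with
  | zero => rw [iteratedDeriv_zero, pow_zero, one_mul]
  | succ j ih =>
    have h0 := hPp p hper j 0
    rw [zero_add] at h0
    rw [cf_deriv _ _ (hP p hp j) (hPc p hp (j + 1)) h0 k, ih]
    ring

lemma norm_kI (k : ℤ) (r : ℕ) (a : ℂ) : ‖((k : ℂ) * Complex.I) ^ r * a‖ = |(k : ℝ)| ^ r * ‖a‖ := by
  rw [norm_mul, norm_pow, norm_mul, Complex.norm_I, mul_one, Complex.norm_intCast]

lemma summ (p : ℝ → ℂ) (hp : ContDiff ℝ ∞ p) (hper : ∀ t, p (t + 2 * π) = p t) (r : ℕ) :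
    Summable fun k : ℤ => |(k : ℝ)| ^ r * ‖cf p k‖ := by
  obtain ⟨M, hM0, hM⟩ := cf_bound (iteratedDeriv (r + 2) p)
  have h1 : Summable fun k : ℤ => M * (1 / (k : ℝ) ^ 2) :=
    (Real.summable_one_div_int_pow.2 (by norm_num)).mul_left M
  have h2 : Summable fun k : ℤ => if k = 0 then |((0 : ℤ) : ℝ)| ^ r * ‖cf p 0‖ else 0 :=
    (hasSum_ite_eq (0 : ℤ) _).summable
  refine Summable.of_nonneg_of_le (fun k => by positivity) (fun k => ?_) (h1.add h2)
  by_cases hk : k = 0
  · subst hk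
    rw [if_pos rfl]
    have : 0 ≤ M * (1 / (((0 : ℤ) : ℝ)) ^ 2) := by positivity
    linarith
  · rw [if_neg hk, add_zero]
    have h3 := hM k
    rw [cf_iter p hp hper, norm_kI] at h3
    have hk' : (0 : ℝ) < |(k : ℝ)| := abs_pos.2 (by exact_mod_cast hk)
    have e : (k : ℝ) ^ 2 = |(k : ℝ)| ^ 2 := (sq_abs _).symm
    rw [e, mul_one_div, le_div_iff₀ (by positivity)]
    calc |(k : ℝ)| ^ r * ‖cf p k‖ * |(k : ℝ)| ^ 2 = |(k : ℝ)| ^ (r + 2) * ‖cf p k‖ := by ring
      _ ≤ M := h3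

/-! ### the derivatives of the partial sums -/

lemma iter_real (s : Finset ℤ) (j : ℕ) : ∀ a : ℤ → ℂ,
    iteratedDeriv j (fun t : ℝ => ∑ k ∈ s, a k * Complex.exp ((k : ℂ) * ((t : ℂ) * Complex.I))) =
      fun t : ℝ => ∑ k ∈ s, ((k : ℂ) * Complex.I) ^ j * a k *
        Complex.exp ((k : ℂ) * ((t : ℂ) * Complex.I)) := by
  induction j with
  | zero =>
    intro a
    rw [iteratedDeriv_zero]
    funext t
    exact Finset.sum_congr rfl fun k _ => by rw [pow_zero, one_mul]
  | succ j ih =>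
    intro a
    have hd : deriv (fun t : ℝ => ∑ k ∈ s, a k * Complex.exp ((k : ℂ) * ((t : ℂ) * Complex.I))) =
        fun t : ℝ => ∑ k ∈ s, ((k : ℂ) * Complex.I * a k) *
          Complex.exp ((k : ℂ) * ((t : ℂ) * Complex.I)) := by
      funext t
      apply HasDerivAt.deriv
      have h1 : HasDerivAt (fun t : ℝ => ∑ k ∈ s, a k * Complex.exp ((k : ℂ) * ((t : ℂ) * Complex.I)))
          (∑ k ∈ s, a k * ((k : ℂ) * Complex.I * Complex.exp ((k : ℂ) * ((t : ℂ) * Complex.I)))) t :=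
        HasDerivAt.fun_sum fun k _ => (hd_exp (k : ℂ) t).const_mul (a k)
      have e : ∑ k ∈ s, a k * ((k : ℂ) * Complex.I * Complex.exp ((k : ℂ) * ((t : ℂ) * Complex.I))) =
          ∑ k ∈ s, ((k : ℂ) * Complex.I * a k) * Complex.exp ((k : ℂ) * ((t : ℂ) * Complex.I)) :=
        Finset.sum_congr rfl fun k _ => by ring
      rw [e] at h1
      exact h1
    rw [iteratedDeriv_succ', hd, ih]
    funext t
    exact Finset.sum_congr rfl fun k _ => by ring

lemma iter_complex (s : Finset ℤ) (j : ℕ) : ∀ a : ℤ → ℂ,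
    iteratedDeriv j (fun z : ℂ => ∑ k ∈ s, a k * Complex.exp ((k : ℂ) * z)) =
      fun z : ℂ => ∑ k ∈ s, (k : ℂ) ^ j * a k * Complex.exp ((k : ℂ) * z) := by
  induction j with
  | zero =>
    intro a
    rw [iteratedDeriv_zero]
    funext t
    exact Finset.sum_congr rfl fun k _ => by rw [pow_zero, one_mul]
  | succ j ih =>
    intro a
    have hd : deriv (fun z : ℂ => ∑ k ∈ s, a k * Complex.exp ((k : ℂ) * z)) =
        fun z : ℂ => ∑ k ∈ s, ((k : ℂ) * a k) * Complex.exp ((k : ℂ) * z) := by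
      funext z
      apply HasDerivAt.deriv
      have h0 : ∀ k : ℤ, HasDerivAt (fun z : ℂ => Complex.exp ((k : ℂ) * z))
          ((k : ℂ) * Complex.exp ((k : ℂ) * z)) z := by
        intro k
        have h2 := ((hasDerivAt_id z).const_mul (k : ℂ)).cexp
        rw [mul_one, mul_comm] at h2
        exact h2
      have h1 : HasDerivAt (fun z : ℂ => ∑ k ∈ s, a k * Complex.exp ((k : ℂ) * z))
          (∑ k ∈ s, a k * ((k : ℂ) * Complex.exp ((k : ℂ) * z))) z :=
        HasDerivAt.fun_sum fun k _ => (h0 k).const_mul (a k)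
      have e : ∑ k ∈ s, a k * ((k : ℂ) * Complex.exp ((k : ℂ) * z)) =
          ∑ k ∈ s, ((k : ℂ) * a k) * Complex.exp ((k : ℂ) * z) :=
        Finset.sum_congr rfl fun k _ => by ring
      rw [e] at h1
      exact h1
    rw [iteratedDeriv_succ', hd, ih]
    funext t
    exact Finset.sum_congr rfl fun k _ => by ring

lemma iter_id (j : ℕ) (z : ℂ) : ‖iteratedDeriv (j + 1) (fun z : ℂ => z) z‖ ≤ 1 := by
  rw [iteratedDeriv_succ']
  have e : deriv (fun z : ℂ => z) = fun _ => (1 : ℂ) := by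
    funext z
    exact deriv_id z
  rw [e, iteratedDeriv_const]
  by_cases hj : j = 0
  · rw [if_pos hj, norm_one]
  · rw [if_neg hj, norm_zero]
    exact zero_le_one

lemma cd_ofReal (n : WithTop ℕ∞) : ContDiff ℝ n (fun t : ℝ => (t : ℂ)) := Complex.ofRealCLM.contDiff

theorem stFou : StFou := by
  intro c hc hper
  set p : ℝ → ℂ := fun t => c t - (t : ℂ) * Complex.I with hpdef
  have hp : ContDiff ℝ ∞ p := hc.sub ((cd_ofReal _).mul contDiff_const)
  have hpp : ∀ t, p (t + 2 * π) = p t := by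
    intro t
    rw [hpdef]
    change c (t + 2 * π) - ((t + 2 * π : ℝ) : ℂ) * Complex.I = c t - (t : ℂ) * Complex.I
    rw [hper t]
    push_cast
    ring
  set a : ℤ → ℂ := cf p with ha
  have hsum := summ p hp hpp
  refine ⟨fun n z => z + ∑ k ∈ Finset.Icc (-(n : ℤ)) n, a k * Complex.exp ((k : ℂ) * z), ?_, ?_, ?_, ?_⟩
  · intro n
    fun_prop
  · intro n z
    have h1 : ∀ k : ℤ, Complex.exp ((k : ℂ) * (z + 2 * π * Complex.I)) = Complex.exp ((k : ℂ) * z) := by
      intro k
      have e : (k : ℂ) * (z + 2 * π * Complex.I) = (k : ℂ) * z + (k : ℂ) * (2 * π * Complex.I) := by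
        ring
      rw [e, Complex.exp_add, Complex.exp_int_mul_two_pi_mul_I, mul_one]
    change z + 2 * π * Complex.I + ∑ k ∈ Finset.Icc (-(n : ℤ)) n,
      a k * Complex.exp ((k : ℂ) * (z + 2 * π * Complex.I)) = _
    simp only [h1]
    ring
  · intro j m
    refine ⟨∑' k : ℤ, |(k : ℝ)| ^ (j + m) * ‖a k‖, fun n t => ?_⟩
    set s := Finset.Icc (-(n : ℤ)) n with hs
    have hcf : ContDiff ℝ ∞ (fun t : ℝ => ∑ k ∈ s, a k * Complex.exp ((k : ℂ) * ((t : ℂ) * Complex.I))) := by
      refine ContDiff.sum fun k _ => contDiff_const.mul ?_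
      exact (contDiff_const.mul ((cd_ofReal _).mul contDiff_const)).cexp
    have hI : ContDiff ℝ ∞ (fun t : ℝ => (t : ℂ) * Complex.I) := (cd_ofReal _).mul contDiff_const
    have hj : ((j : ℕ) : WithTop ℕ∞) ≤ ∞ := (WithTop.coe_lt_coe.2 (ENat.natCast_lt_top j)).le
    have e1 : iteratedDeriv j (fun t : ℝ => (t : ℂ) * Complex.I +
        ∑ k ∈ s, a k * Complex.exp ((k : ℂ) * ((t : ℂ) * Complex.I))) t =
        iteratedDeriv j (fun t : ℝ => (t : ℂ) * Complex.I) t +
        iteratedDeriv j (fun t : ℝ => ∑ k ∈ s, a k * Complex.exp ((k : ℂ) * ((t : ℂ) * Complex.I))) t :=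
      iteratedDeriv_fun_add (hI.of_le hj).contDiffAt (hcf.of_le hj).contDiffAt
    have e2 : iteratedDeriv j c t = iteratedDeriv j (fun t : ℝ => (t : ℂ) * Complex.I) t +
        iteratedDeriv j p t := by
      have e3 : c = fun t : ℝ => (t : ℂ) * Complex.I + p t := by
        funext t
        rw [hpdef]
        ring
      conv_lhs => rw [e3]
      exact iteratedDeriv_fun_add (hI.of_le hj).contDiffAt (hp.of_le hj).contDiffAt
    change ‖iteratedDeriv j (fun t : ℝ => (t : ℂ) * Complex.I +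
        ∑ k ∈ s, a k * Complex.exp ((k : ℂ) * ((t : ℂ) * Complex.I))) t - iteratedDeriv j c t‖ ≤ _
    rw [e1, e2, iter_real, add_sub_add_left_eq_sub, norm_sub_rev]
    -- the series of the `j`-th derivative
    have hPs : Summable fun k : ℤ => ‖cf (iteratedDeriv j p) k‖ := by
      refine (hsum j).congr fun k => ?_
      rw [cf_iter p hp hpp, norm_kI]
    have h1 := cf_hasSum (iteratedDeriv j p) (hPc p hp j) (hPp p hpp j) hPs t
    simp only [cf_iter p hp hpp] at h1
    have h2 : HasSum (fun k : ℤ => if k ∈ s then ((k : ℂ) * Complex.I) ^ j * a k *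
        Complex.exp ((k : ℂ) * ((t : ℂ) * Complex.I)) else 0)
        (∑ k ∈ s, ((k : ℂ) * Complex.I) ^ j * a k * Complex.exp ((k : ℂ) * ((t : ℂ) * Complex.I))) := by
      have h3 : HasSum (fun k : ℤ => if k ∈ s then ((k : ℂ) * Complex.I) ^ j * a k *
          Complex.exp ((k : ℂ) * ((t : ℂ) * Complex.I)) else 0)
          (∑ k ∈ s, (if k ∈ s then ((k : ℂ) * Complex.I) ^ j * a k *
          Complex.exp ((k : ℂ) * ((t : ℂ) * Complex.I)) else 0)) :=
        hasSum_sum_of_ne_finset_zero fun k hk => if_neg hk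
      have e4 : ∑ k ∈ s, (if k ∈ s then ((k : ℂ) * Complex.I) ^ j * a k *
          Complex.exp ((k : ℂ) * ((t : ℂ) * Complex.I)) else 0) =
          ∑ k ∈ s, ((k : ℂ) * Complex.I) ^ j * a k * Complex.exp ((k : ℂ) * ((t : ℂ) * Complex.I)) :=
        Finset.sum_congr rfl fun k hk => if_pos hk
      rw [e4] at h3
      exact h3
    have h4 := h1.sub h2
    have h5 : HasSum (fun k : ℤ => (|(k : ℝ)| ^ (j + m) * ‖a k‖) * (1 / ((n : ℝ) + 1) ^ m))
        ((∑' k : ℤ, |(k : ℝ)| ^ (j + m) * ‖a k‖) * (1 / ((n : ℝ) + 1) ^ m)) :=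
      ((hsum (j + m)).hasSum).mul_right _
    have h6 := h4.norm_le_of_bounded h5 ?_
    · rw [mul_one_div] at h6
      exact h6
    · intro k
      by_cases hk : k ∈ s
      · rw [if_pos hk, sub_self, norm_zero]
        positivity
      · rw [if_neg hk, sub_zero, norm_mul, norm_kI]
        have e5 : (k : ℂ) * ((t : ℂ) * Complex.I) = ((k * t : ℝ) : ℂ) * Complex.I := by
          push_cast
          ring
        rw [e5, Complex.norm_exp_ofReal_mul_I, mul_one]
        have h7 : ((n : ℝ) + 1) ≤ |(k : ℝ)| := by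
          rw [hs, Finset.mem_Icc, not_and_or, not_le, not_le] at hk
          have h8 : (n : ℤ) + 1 ≤ |k| := by
            rcases hk with hk | hk
            · rw [le_abs]
              right
              omega
            · rw [le_abs]
              left
              omega
          exact_mod_cast h8
        have hn : (0 : ℝ) < (n : ℝ) + 1 := by positivity
        have h9 : ((n : ℝ) + 1) ^ m ≤ |(k : ℝ)| ^ m := pow_le_pow_left₀ hn.le h7 m
        rw [mul_one_div, le_div_iff₀ (by positivity), pow_add]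
        calc |(k : ℝ)| ^ j * ‖a k‖ * ((n : ℝ) + 1) ^ m ≤ |(k : ℝ)| ^ j * ‖a k‖ * |(k : ℝ)| ^ m :=
              mul_le_mul_of_nonneg_left h9 (by positivity)
          _ = |(k : ℝ)| ^ j * |(k : ℝ)| ^ m * ‖a k‖ := by ring
  · intro j hj
    obtain ⟨j, rfl⟩ := Nat.exists_eq_add_of_le' hj
    refine ⟨1 + Real.exp 1 * ∑' k : ℤ, |(k : ℝ)| ^ (j + 1) * ‖a k‖, fun n z hz => ?_⟩
    set s := Finset.Icc (-(n : ℤ)) n with hs
    have hcf : ContDiff ℂ ∞ (fun z : ℂ => ∑ k ∈ s, a k * Complex.exp ((k : ℂ) * z)) := by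
      refine ContDiff.sum fun k _ => contDiff_const.mul ?_
      exact (contDiff_const.mul contDiff_id).cexp
    have hj' : ((j + 1 : ℕ) : WithTop ℕ∞) ≤ ∞ := (WithTop.coe_lt_coe.2 (ENat.natCast_lt_top (j + 1))).le
    have e1 : iteratedDeriv (j + 1) (fun z : ℂ => z + ∑ k ∈ s, a k * Complex.exp ((k : ℂ) * z)) z =
        iteratedDeriv (j + 1) (fun z : ℂ => z) z +
        iteratedDeriv (j + 1) (fun z : ℂ => ∑ k ∈ s, a k * Complex.exp ((k : ℂ) * z)) z :=
      iteratedDeriv_fun_add ((contDiff_id (𝕜 := ℂ) (E := ℂ) (n := ∞)).of_le hj').contDiffAt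
        (hcf.of_le hj').contDiffAt
    rw [e1, iter_complex]
    refine (norm_add_le _ _).trans (add_le_add (iter_id j z) ?_)
    refine (norm_sum_le _ _).trans ?_
    have h1 : ∀ k ∈ s, ‖(k : ℂ) ^ (j + 1) * a k * Complex.exp ((k : ℂ) * z)‖ ≤
        Real.exp 1 * (|(k : ℝ)| ^ (j + 1) * ‖a k‖) := by
      intro k hk
      rw [norm_mul, norm_mul, norm_pow, Complex.norm_intCast, Complex.norm_exp, mul_comm]
      refine mul_le_mul_of_nonneg_right (Real.exp_le_exp.2 ?_) (by positivity)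
      have e2 : ((k : ℂ) * z).re = (k : ℝ) * z.re := by
        rw [← Complex.ofReal_intCast, Complex.re_ofReal_mul]
      rw [e2]
      have h2 : |(k : ℝ)| ≤ n := by
        rw [hs, Finset.mem_Icc] at hk
        have : |k| ≤ (n : ℤ) := abs_le.2 hk
        exact_mod_cast this
      have hn : (0 : ℝ) < (n : ℝ) + 1 := by positivity
      calc (k : ℝ) * z.re ≤ |(k : ℝ) * z.re| := le_abs_self _
        _ = |(k : ℝ)| * |z.re| := abs_mul _ _
        _ ≤ n * (1 / ((n : ℝ) + 1)) := mul_le_mul h2 hz (abs_nonneg _) (Nat.cast_nonneg _)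
        _ ≤ 1 := by
            rw [mul_one_div, div_le_one hn]
            linarith
    refine (Finset.sum_le_sum h1).trans ?_
    rw [← Finset.mul_sum]
    refine mul_le_mul_of_nonneg_left ?_ (Real.exp_pos 1).le
    exact (hsum (j + 1)).sum_le_tsum s fun k _ => by positivity

end Pool.Agent.H539.GV
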